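import Pool.Agent.Lib.MP_b1a3a4_al.MVS.LG.Iface

/-!
# Module PRISM: the prism operator of the bar complex
-/

set_option linter.all false

namespace Pool.Agent.Lib.MP_b1a3a4_al.MVS.LG.H32

open Finsupp

variable {S : Type} [Group S]

/-- the cone with vertex `s` -/
noncomputable def cone (s : S) (q : ℕ) : BC S q →+ BC S (q + 1) :=
  Finsupp.mapDomain.addMonoidHom (fun t => Fin.cons s t)

lemma cone_single (s : S) (q : ℕ) (t : Fin (q + 1) → S) (a : ℤ) :
    cone s q (single t a) = single (Fin.cons s t) a := by
  simp [cone, Finsupp.mapDomain_single]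

lemma rmul_single (y : S) (q : ℕ) (t : Fin (q + 1) → S) (a : ℤ) :
    rmul y (single t a : BC S q) = single (fun i => t i * y) a := by
  simp [rmul, Finsupp.mapDomain_single]

lemma act_single (y : S) (q : ℕ) (t : Fin (q + 1) → S) (a : ℤ) :
    act y (single t a : BC S q) = single (fun i => y * t i) a := by
  simp [act, Finsupp.mapDomain_single]

lemma bd_single (q : ℕ) (t : Fin (q + 2) → S) :
    bd S q (single t 1) = ∑ k : Fin (q + 2), ((-1 : ℤ) ^ (k : ℕ)) •
      single (fun i => t (k.succAbove i)) (1 : ℤ) := by
  simp [bd]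

lemma pri_single (y : S) (q : ℕ) (t : Fin (q + 1) → S) :
    pri y q (single t 1) = ∑ i : Fin (q + 1), ((-1 : ℤ) ^ (i : ℕ)) • single
      (fun l : Fin (q + 2) => t (i.predAbove l) * (if Fin.castSucc i < l then y else 1)) (1 : ℤ) := by
  simp [pri]

/-- additive maps which agree on the basis are equal -/
lemma bc_ext {q : ℕ} {A : Type} [AddCommGroup A] {f g : BC S q →+ A}
    (h : ∀ t, f (single t 1) = g (single t 1)) (v : BC S q) : f v = g v := by
  have : f = g := by
    ext t
    simpa using h t
  rw [this]

lemma bd_cone (s : S) (q : ℕ) (v : BC S (q + 1)) :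
    bd S (q + 1) (cone s (q + 1) v) = v - cone s q (bd S q v) := by
  have := bc_ext (f := (bd S (q + 1)).comp (cone s (q + 1)))
    (g := AddMonoidHom.id _ - (cone s q).comp (bd S q)) ?_ v
  · simpa using this
  intro t
  simp only [AddMonoidHom.comp_apply, AddMonoidHom.sub_apply, AddMonoidHom.id_apply]
  rw [cone_single, bd_single, bd_single, Fin.sum_univ_succ, map_sum, sub_eq_add_neg,
    ← Finset.sum_neg_distrib]
  congr 1
  · simp only [Fin.val_zero, pow_zero, one_smul]
    congr 1
  · refine Finset.sum_congr rfl fun k _ => ?_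
    rw [map_zsmul, cone_single, Fin.val_succ, pow_succ, mul_neg_one, neg_smul]
    congr 3
    funext i
    refine Fin.cases ?_ (fun j => ?_) i
    · simp
    · simp [Fin.succ_succAbove_succ]

lemma bd_cone_zero (s : S) (t : Fin 1 → S) :
    bd S 0 (cone s 0 (single t 1)) = single t 1 - single (fun _ => s) 1 := by
  rw [cone_single, bd_single, Fin.sum_univ_two]
  simp only [Fin.val_zero, pow_zero, one_smul, Fin.val_one, pow_one, neg_smul, ← sub_eq_add_neg]
  congr 2
  funext i
  have hi : i = 0 := Fin.ext (by omega)
  subst hi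
  rfl

lemma rmul_cone (y s : S) (q : ℕ) (v : BC S q) :
    rmul y (cone s q v) = cone (s * y) q (rmul y v) := by
  have := bc_ext (f := (rmul (q := q + 1) y).comp (cone s q))
    (g := (cone (s * y) q).comp (rmul y)) ?_ v
  · simpa using this
  intro t
  simp only [AddMonoidHom.comp_apply]
  rw [cone_single, rmul_single, rmul_single, cone_single]
  congr 1
  funext i
  refine Fin.cases ?_ (fun j => ?_) i <;> simp

lemma bd_rmul (y : S) (q : ℕ) (v : BC S (q + 1)) :
    bd S q (rmul y v) = rmul y (bd S q v) := by
  have := bc_ext (f := (bd S q).comp (rmul (q := q + 1) y))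
    (g := (rmul (q := q) y).comp (bd S q)) ?_ v
  · simpa using this
  intro t
  simp only [AddMonoidHom.comp_apply]
  rw [rmul_single, bd_single, bd_single, map_sum]
  refine Finset.sum_congr rfl fun k _ => ?_
  rw [map_zsmul, rmul_single]

lemma pri_cone (y s : S) (q : ℕ) (v : BC S q) :
    pri y (q + 1) (cone s q v) = cone s (q + 1) (cone (s * y) q (rmul y v)) -
      cone s (q + 1) (pri y q v) := by
  have := bc_ext (f := (pri y (q + 1)).comp (cone s q))
    (g := ((cone s (q + 1)).comp ((cone (s * y) q).comp (rmul y))) -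
      (cone s (q + 1)).comp (pri y q)) ?_ v
  · simpa using this
  intro t
  simp only [AddMonoidHom.comp_apply, AddMonoidHom.sub_apply]
  rw [cone_single, pri_single, pri_single, rmul_single, cone_single, cone_single,
    Fin.sum_univ_succ, map_sum, sub_eq_add_neg, ← Finset.sum_neg_distrib]
  congr 1
  · simp only [Fin.val_zero, pow_zero, one_smul]
    congr 1
    funext l
    refine Fin.cases ?_ (fun l' => ?_) l
    · simp
    · refine Fin.cases ?_ (fun j => ?_) l'
      · simp
      · simp
  · refine Finset.sum_congr rfl fun i _ => ?_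
    rw [map_zsmul, cone_single, Fin.val_succ, pow_succ, mul_neg_one, neg_smul]
    congr 3
    funext l
    refine Fin.cases ?_ (fun l' => ?_) l
    · simp
    · simp [Fin.succ_predAbove_succ, Fin.cons_succ]

lemma pri_act (y s : S) (q : ℕ) (v : BC S q) : pri y q (act s v) = act s (pri y q v) := by
  have := bc_ext (f := (pri y q).comp (act s)) (g := (act s).comp (pri y q)) ?_ v
  · simpa using this
  intro t
  simp only [AddMonoidHom.comp_apply]
  rw [act_single, pri_single, pri_single, map_sum]
  refine Finset.sum_congr rfl fun i _ => ?_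
  rw [map_zsmul, act_single]
  congr 2
  funext l
  rw [mul_assoc]

lemma pri_rmul {y z : S} (h : y * z = z * y) (q : ℕ) (v : BC S q) :
    pri y q (rmul z v) = rmul z (pri y q v) := by
  have := bc_ext (f := (pri y q).comp (rmul z)) (g := (rmul z).comp (pri y q)) ?_ v
  · simpa using this
  intro t
  simp only [AddMonoidHom.comp_apply]
  rw [rmul_single, pri_single, pri_single, map_sum]
  refine Finset.sum_congr rfl fun i _ => ?_
  rw [map_zsmul, rmul_single]
  congr 2
  funext l
  split_ifs
  · rw [mul_assoc, mul_assoc, h]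
  · simp

lemma exists_cone {q : ℕ} (t : Fin (q + 2) → S) :
    ∃ (s : S) (t' : Fin (q + 1) → S), (single t 1 : BC S (q + 1)) = cone s q (single t' 1) :=
  ⟨t 0, fun i => t i.succ, by rw [cone_single]; congr 1; exact (Fin.cons_self_tail t).symm⟩

lemma prism_zero (y : S) (v : BC S 0) : bd S 0 (pri y 0 v) = rmul y v - v := by
  have := bc_ext (f := (bd S 0).comp (pri y 0)) (g := rmul y - AddMonoidHom.id _) ?_ v
  · simpa using this
  intro t
  simp only [AddMonoidHom.comp_apply, AddMonoidHom.sub_apply, AddMonoidHom.id_apply]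
  rw [pri_single, Fin.sum_univ_one, map_zsmul, bd_single, Fin.sum_univ_two, rmul_single]
  simp only [Fin.val_zero, pow_zero, one_smul, Fin.val_one, pow_one, neg_smul, ← sub_eq_add_neg]
  congr 2
  · funext i
    have hi : i = 0 := Fin.ext (by omega)
    subst hi
    simp

lemma prism_one (y : S) (v : BC S 1) :
    bd S 1 (pri y 1 v) + pri y 0 (bd S 0 v) = rmul y v - v := by
  have := bc_ext (f := (bd S 1).comp (pri y 1) + (pri y 0).comp (bd S 0))
    (g := rmul y - AddMonoidHom.id _) ?_ v
  · simpa using this
  intro t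
  simp only [AddMonoidHom.comp_apply, AddMonoidHom.sub_apply, AddMonoidHom.id_apply,
    AddMonoidHom.add_apply]
  obtain ⟨s, t', ht⟩ := exists_cone t
  rw [ht, pri_cone, map_sub, bd_cone, bd_cone, prism_zero, rmul_single, bd_cone_zero,
    bd_cone_zero, rmul_cone, rmul_single, map_sub, map_sub, map_sub]
  have h1 : pri y 0 (single (fun _ : Fin 1 => s) (1 : ℤ)) =
      cone s 0 (single (fun _ : Fin 1 => s * y) 1) := by
    rw [pri_single, Fin.sum_univ_one, cone_single]
    simp only [Fin.val_zero, pow_zero, one_smul]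
    congr 1
    funext l
    refine Fin.cases ?_ (fun j => ?_) l
    · simp
    · simp
  rw [h1]
  abel

lemma prism_succ (y : S) : ∀ (q : ℕ) (v : BC S (q + 1)),
    bd S (q + 1) (pri y (q + 1) v) + pri y q (bd S q v) = rmul y v - v := by
  intro q
  induction q with
  | zero => exact prism_one y
  | succ q ih =>
    intro v
    have := bc_ext (f := (bd S (q + 2)).comp (pri y (q + 2)) + (pri y (q + 1)).comp (bd S (q + 1)))
      (g := rmul y - AddMonoidHom.id _) ?_ v
    · simpa using this
    intro t
    simp only [AddMonoidHom.comp_apply, AddMonoidHom.sub_apply, AddMonoidHom.id_apply,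
      AddMonoidHom.add_apply]
    obtain ⟨s, t', ht⟩ := exists_cone t
    rw [ht, pri_cone, map_sub, bd_cone, bd_cone, bd_cone, bd_cone, rmul_cone, map_sub, map_sub,
      pri_cone, bd_rmul]
    have h1 := congrArg (cone s (q + 1)) (ih (single t' 1))
    rw [map_add, map_sub] at h1
    rw [← sub_eq_zero] at h1 ⊢
    rw [← h1]
    abel

theorem prism : PrismStatement :=
  fun S _ y => ⟨fun q v => prism_succ y q v, fun v => prism_zero y v,
    fun q s v => pri_act y s q v⟩

end Pool.Agent.Lib.MP_b1a3a4_al.MVS.LG.H32
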