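import Pool.Agent.Lib.MP_b1a3a4_al.MVS.LG.H32.Prism

/-!
# Module ZCH: product cycles
-/

set_option linter.all false

namespace Pool.Agent.Lib.MP_b1a3a4_al.MVS.LG.H32

open Finsupp

variable {S : Type} [Group S]

/-- the product chain -/
noncomputable def zz : (q : ℕ) → (Fin q → S) → BC S q
  | 0, _ => single (fun _ => 1) 1
  | q + 1, Y => pri (Y (Fin.last q)) q (zz q (fun i => Y (Fin.castSucc i)))

/-- the chains in the boundary of the product chain -/
noncomputable def aa : (q : ℕ) → (Fin (q + 1) → S) → Fin (q + 1) → BC S q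
  | 0, _, _ => single (fun _ => 1) 1
  | q + 1, Y, j => Fin.lastCases (motive := fun _ => BC S (q + 1))
      (zz (q + 1) (fun i => Y (Fin.castSucc i)))
      (fun j => - pri (Y (Fin.last (q + 1))) q (aa q (fun i => Y (Fin.castSucc i)) j)) j

lemma rmul_zz : ∀ (q : ℕ) (Y : Fin q → S) (y : S), (∀ i, Y i * y = y * Y i) →
    rmul y (zz q Y) = act y (zz q Y)
  | 0, Y, y, _ => by
    rw [zz, rmul_single, act_single]
    simp
  | q + 1, Y, y, h => by
    rw [zz, ← pri_rmul (h _), ← pri_act, rmul_zz q _ y (fun i => h _)]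

lemma bd_zz : ∀ (q : ℕ) (Y : Fin (q + 1) → S), (∀ i j, i ≠ j → Y i * Y j = Y j * Y i) →
    bd S q (zz (q + 1) Y) = ∑ j, (act (Y j) (aa q Y j) - aa q Y j)
  | 0, Y, _ => by
    rw [zz, prism_zero, Fin.sum_univ_one]
    have := rmul_zz 0 (fun i => Y (Fin.castSucc i)) (Y 0) (fun i => i.elim0)
    have h2 : Fin.last 0 = 0 := rfl
    rw [h2, this]
    rfl
  | q + 1, Y, h => by
    rw [zz, Fin.sum_univ_castSucc]
    have h1 := prism_succ (Y (Fin.last (q + 1))) q (zz (q + 1) (fun i => Y (Fin.castSucc i)))
    have h2 := rmul_zz (q + 1) (fun i => Y (Fin.castSucc i)) (Y (Fin.last (q + 1)))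
      (fun i => h _ _ (Fin.castSucc_lt_last i).ne)
    have h3 := bd_zz q (fun i => Y (Fin.castSucc i)) (fun i j hij =>
      h _ _ (fun e => hij (Fin.castSucc_injective _ e)))
    rw [h3, h2, map_sum] at h1
    have h4 : ∀ j : Fin (q + 1), aa (q + 1) Y (Fin.castSucc j) =
        - pri (Y (Fin.last (q + 1))) q (aa q (fun i => Y (Fin.castSucc i)) j) := by
      intro j
      rw [aa]
      exact Fin.lastCases_castSucc ..
    have h5 : aa (q + 1) Y (Fin.last (q + 1)) = zz (q + 1) (fun i => Y (Fin.castSucc i)) := by
      rw [aa]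
      exact Fin.lastCases_last ..
    rw [h5]
    have h6 : ∑ j : Fin (q + 1), (act (Y (Fin.castSucc j)) (aa (q + 1) Y (Fin.castSucc j)) -
        aa (q + 1) Y (Fin.castSucc j)) = - ∑ j : Fin (q + 1), pri (Y (Fin.last (q + 1))) q
          (act (Y (Fin.castSucc j)) (aa q (fun i => Y (Fin.castSucc i)) j) -
            aa q (fun i => Y (Fin.castSucc i)) j) := by
      rw [← Finset.sum_neg_distrib]
      refine Finset.sum_congr rfl fun j _ => ?_
      rw [h4, map_sub, pri_act, map_neg]
      abel
    rw [h6]
    rw [← h1]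
    abel

/-- a product chain does not depend on ... -/
lemma aa_update : ∀ (q : ℕ) (Y : Fin (q + 1) → S) (j : Fin (q + 1)) (s : S),
    aa q (Function.update Y j s) j = aa q Y j
  | 0, _, _, _ => rfl
  | q + 1, Y, j, s => by
    rw [aa, aa]
    refine Fin.lastCases ?_ (fun j => ?_) j
    · rw [Fin.lastCases_last, Fin.lastCases_last]
      congr 1
      funext i
      rw [Function.update_of_ne (Fin.castSucc_lt_last i).ne]
    · rw [Fin.lastCases_castSucc, Fin.lastCases_castSucc]
      rw [Function.update_of_ne (Fin.castSucc_lt_last j).ne']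
      have h1 : (fun i => Function.update Y (Fin.castSucc j) s (Fin.castSucc i)) =
          Function.update (fun i => Y (Fin.castSucc i)) j s := by
        funext i
        by_cases hij : i = j
        · subst hij; simp
        · rw [Function.update_of_ne hij, Function.update_of_ne (fun e =>
            hij (Fin.castSucc_injective _ e))]
      rw [h1, aa_update q]

/-- the sign -/
def sg : ℕ → ℤ
  | 0 => 1
  | q + 1 => (-1) ^ q * sg q

lemma sg_or : ∀ q, sg q = 1 ∨ sg q = -1
  | 0 => Or.inl rfl
  | q + 1 => by
    rcases sg_or q with h | h <;> rcases neg_one_pow_eq_or ℤ q with h' | h' <;>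
      simp [sg, h, h']

lemma cup_zero {V : Type} [AddCommGroup V] : ∀ (n : ℕ) (w : (Fin n → S) → V)
    (_ : ∀ t, w t = 0) (t : Fin (n + 1) → S), cup n w t = 0
  | 0, w, h, t => h _
  | n + 1, w, h, t => by
    rw [cup]
    exact cup_zero n _ (fun t => by rw [h, h, sub_zero]) _

/-- chains of simplices with vertices in `K` -/
noncomputable def inK (K : Subgroup S) (q : ℕ) : AddSubgroup (BC S q) :=
  AddSubgroup.closure {x | ∃ t : Fin (q + 1) → S, (∀ i, t i ∈ K) ∧ x = single t 1}

lemma pri_inK (K : Subgroup S) {y : S} (hy : y ∈ K) (q : ℕ) {v : BC S q} (hv : v ∈ inK K q) :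
    pri y q v ∈ inK K (q + 1) := by
  have : inK K q ≤ (inK K (q + 1)).comap (pri y q) := by
    refine (AddSubgroup.closure_le _).2 ?_
    rintro x ⟨t, ht, rfl⟩
    show pri y q (single t 1) ∈ inK K (q + 1)
    rw [pri_single]
    refine AddSubgroup.sum_mem _ fun i _ => ?_
    refine AddSubgroup.zsmul_mem _ ?_ _
    refine AddSubgroup.subset_closure ⟨(fun l : Fin (q + 2) =>
      t (i.predAbove l) * (if Fin.castSucc i < l then y else 1)), fun l => ?_, rfl⟩
    refine K.mul_mem (ht _) ?_
    split_ifs
    · exact hy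
    · exact K.one_mem
  exact this hv

lemma zz_inK (K : Subgroup S) : ∀ (q : ℕ) (Y : Fin q → S), (∀ i, Y i ∈ K) → zz q Y ∈ inK K q
  | 0, _, _ => AddSubgroup.subset_closure ⟨_, fun _ => K.one_mem, rfl⟩
  | q + 1, Y, h => pri_inK K (h _) q (zz_inK K q _ (fun i => h _))

lemma ev_cup_pri {V : Type} [AddCommGroup V] (q : ℕ) (W : (Fin (q + 1) → S) → V)
    (K : Subgroup S) [K.Normal] (h1 : ∀ (t : Fin q → S) (s : S), ∀ u ∈ K,
      W (Fin.snoc t (s * u)) = W (Fin.snoc t s)) (h2 : ∀ (t : Fin q → S), ∀ u ∈ K,
      W (Fin.snoc t u) = 0) (y : S) {v : BC S q} (hv : v ∈ inK K q) :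
    ev (cup (q + 1) W) (pri y q v) = (-1 : ℤ) ^ q • ev (cup q (fun t => W (Fin.snoc t y))) v := by
  have h3 : ∀ (t : Fin q → S) (s : S), ∀ u ∈ K, W (Fin.snoc t (u * s)) = W (Fin.snoc t s) := by
    intro t s u hu
    have : u * s = s * (s⁻¹ * u * s) := by group
    rw [this]
    apply h1
    have := ‹K.Normal›.conj_mem u hu s⁻¹
    rwa [inv_inv] at this
  induction hv using AddSubgroup.closure_induction with
  | mem x hx =>
    obtain ⟨t, ht, rfl⟩ := hx
    rw [pri_single, map_sum, Fin.sum_univ_castSucc, Finset.sum_eq_zero]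
    · rw [zero_add, map_zsmul, ev_single, one_smul, ev_single, one_smul, Fin.val_last]
      congr 1
      rw [cup]
      have e1 : (fun τ : Fin q → S => W (Fin.snoc τ ((fun l : Fin (q + 2) =>
          t ((Fin.last q).predAbove l) * (if Fin.castSucc (Fin.last q) < l then y else 1))
            (Fin.last (q + 1)))) - W (Fin.snoc τ ((fun l : Fin (q + 2) =>
          t ((Fin.last q).predAbove l) * (if Fin.castSucc (Fin.last q) < l then y else 1))
            (Fin.castSucc (Fin.last q))))) = fun τ => W (Fin.snoc τ y) := by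
        funext τ
        have e2 : (Fin.last q).predAbove (Fin.last (q + 1)) = Fin.last q := by
          simp
        have e3 : (Fin.last q).predAbove (Fin.castSucc (Fin.last q)) = Fin.last q := by
          simp
        simp only [e2, e3, lt_irrefl, if_false, mul_one, Fin.castSucc_lt_last, if_true]
        rw [h2 τ _ (ht _), sub_zero, h3 τ y _ (ht _)]
      rw [e1]
      congr 1
      funext l
      have e4 : (Fin.last q).predAbove (Fin.castSucc l) = l := by
        simp
      have e5 : ¬ (Fin.castSucc (Fin.last q) < Fin.castSucc l) := by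
        rw [Fin.castSucc_lt_castSucc_iff]
        exact not_lt.2 (Fin.le_last l)
      rw [e4, if_neg e5, mul_one]
    · intro i _
      rw [map_zsmul, ev_single, one_smul, cup]
      rw [cup_zero, smul_zero]
      intro τ
      have e1 : Fin.castSucc (Fin.castSucc i) < Fin.last (q + 1) := Fin.castSucc_lt_last _
      have e2 : Fin.castSucc (Fin.castSucc i) < Fin.castSucc (Fin.last q) := by
        rw [Fin.castSucc_lt_castSucc_iff]
        exact Fin.castSucc_lt_last i
      simp only [e1, e2, if_true]
      rw [h3 τ y _ (ht _), h3 τ y _ (ht _), sub_self]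
  | zero => simp
  | add x x' _ _ hx hx' => rw [map_add, map_add, map_add, smul_add, hx, hx']
  | neg x _ hx => rw [map_neg, map_neg, map_neg, smul_neg, hx]

lemma ev_cup_zz {V : Type} [AddCommGroup V] : ∀ (q : ℕ) (W : (Fin q → S) → V) (Y : Fin q → S)
    (K : Fin q → Subgroup S), (∀ j, (K j).Normal) →
    (∀ (j : Fin q) (t : Fin q → S) (s : S), ∀ u ∈ K j,
      W (Function.update t j (s * u)) = W (Function.update t j s)) →
    (∀ (j : Fin q) (t : Fin q → S), ∀ u ∈ K j, W (Function.update t j u) = 0) →
    (∀ i j, i ≠ j → Y i ∈ K j) → ev (cup q W) (zz q Y) = sg q • W Y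
  | 0, W, Y, K, _, _, _, _ => by
    rw [zz, ev_single, cup, sg]
    congr 2
    funext i
    exact i.elim0
  | q + 1, W, Y, K, hK, h1, h2, h3 => by
    rw [zz]
    haveI := hK (Fin.last q)
    have hs : ∀ (t : Fin q → S) (s : S), (Fin.snoc t s : Fin (q + 1) → S) =
        Function.update (Fin.snoc t (1 : S) : Fin (q + 1) → S) (Fin.last q) s := by
      intro t s
      rw [Fin.update_snoc_last]
    rw [ev_cup_pri q W (K (Fin.last q)) ?_ ?_ (Y (Fin.last q)) (zz_inK _ q _ (fun i =>
      h3 _ _ (Fin.castSucc_lt_last i).ne))]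
    · rw [ev_cup_zz q (fun t => W (Fin.snoc t (Y (Fin.last q)))) (fun i => Y (Fin.castSucc i))
        (fun j => K (Fin.castSucc j)) (fun j => hK _) ?_ ?_ ?_]
      · rw [sg, mul_smul]
        congr 3
        exact Fin.snoc_init_self Y
      · intro j t s u hu
        rw [Fin.snoc_update, Fin.snoc_update]
        exact h1 _ _ _ _ hu
      · intro j t u hu
        rw [Fin.snoc_update]
        exact h2 _ _ _ hu
      · intro i j hij
        exact h3 _ _ (fun e => hij (Fin.castSucc_injective _ e))
    · intro t s u hu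
      rw [hs, hs t s]
      exact h1 _ _ _ _ hu
    · intro t u hu
      rw [hs]
      exact h2 _ _ _ hu

theorem zch (h1 : PrismStatement) : ZchStatement := by
  intro k L _ S _ π N ν hν hc
  have cY : ∀ (y : ∀ j, N j) (i j : Fin (k + 1)), i ≠ j →
      ν i (y i) * ν j (y j) = ν j (y j) * ν i (y i) := fun y i j hij => hc i j hij _ _
  refine ⟨fun y => zz (k + 1) (fun j => ν j (y j)), fun j y => aa k (fun j => ν j (y j)) j,
    sg (k + 1), sg_or _, ?_, ?_, ?_⟩
  · intro j y g
    have : (fun i => ν i (Function.update y j g i)) =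
        Function.update (fun i => ν i (y i)) j (ν j g) := by
      funext i
      by_cases hij : i = j
      · subst hij; simp
      · rw [Function.update_of_ne hij, Function.update_of_ne hij]
    simp only
    rw [this, aa_update]
  · intro y
    exact bd_zz k _ (fun i j hij => cY y i j hij)
  · intro w hw y
    have hw1 : ∀ (j : Fin (k + 1)) (x : ∀ j, L j), w (Function.update x j 1) = 0 := by
      intro j x
      have := hw j x 1 1
      rw [mul_one] at this
      have h2 : lm (Pi.mulSingle j (1 : L j)) (w (Function.update x j 1)) =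
          w (Function.update x j 1) := by
        rw [Pi.mulSingle_one, lm_one]
      rw [h2] at this
      exact left_eq_add.1 this
    rw [ev_cup_zz (k + 1) (wS π w) (fun j => ν j (y j))
      (fun j => ((Pi.evalMonoidHom L j).comp π).ker) (fun j => inferInstance) ?_ ?_ ?_]
    · congr 1
      unfold wS inclN
      congr 1
      funext j
      rw [hν]
      simp
    · intro j t s u hu
      have hu' : π u j = 1 := hu
      unfold wS
      congr 1
      funext i
      by_cases hij : i = j
      · subst hij
        simp [hu']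
      · rw [Function.update_of_ne hij, Function.update_of_ne hij]
    · intro j t u hu
      have hu' : π u j = 1 := hu
      unfold wS
      have : (fun i => π (Function.update t j u i) i) =
          Function.update (fun i => π (t i) i) j 1 := by
        funext i
        by_cases hij : i = j
        · subst hij
          simp [hu']
        · rw [Function.update_of_ne hij, Function.update_of_ne hij]
      rw [this, hw1]
    · intro i j hij
      show π (ν i (y i)) j = 1
      rw [hν]
      exact Pi.mulSingle_eq_of_ne hij.symm _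

end Pool.Agent.Lib.MP_b1a3a4_al.MVS.LG.H32
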